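import Pool.Agent.C4U.Stmts

/-!
# Squad C4U, row GRA: the graph of a `C4FreeGraph`
-/

set_option autoImplicit false

namespace Pool.Agent.C4U.H62

open Pool.Agent.C4F (Lt cn NumF Runs DecidesIn C4FreeGraph encGraph HasIndep Kit)

/-- look-up in a concatenation of blocks of equal length -/
theorem blk {α β : Type} (f : β → List α) (L : ℕ) (cs : List β) (hL : ∀ x ∈ cs, (f x).length = L)
    (x t : ℕ) (hx : x < cs.length) (ht : t < L) :
    (cs.flatMap f)[x * L + t]? = (f cs[x])[t]? := by
  induction cs generalizing x with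
  | nil => simp at hx
  | cons c cs ih =>
    rw [List.flatMap_cons]
    have h1 : (f c).length = L := hL c (by simp)
    cases x with
    | zero =>
      rw [List.getElem?_append_left (by omega)]
      simp
    | succ x =>
      rw [List.getElem?_append_right (by rw [h1, Nat.succ_mul]; omega)]
      have h2 : (x + 1) * L + t - (f c).length = x * L + t := by
        rw [h1, Nat.succ_mul]; omega
      rw [h2, ih (fun y hy => hL y (by simp [hy])) x (by simpa using hx)]
      simp

theorem blk_length {α β : Type} (f : β → List α) (L : ℕ) (cs : List β)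
    (hL : ∀ x ∈ cs, (f x).length = L) : (cs.flatMap f).length = cs.length * L := by
  induction cs with
  | nil => simp
  | cons c cs ih =>
    rw [List.flatMap_cons, List.length_append, ih (fun y hy => hL y (by simp [hy])),
      hL c (by simp), List.length_cons, Nat.succ_mul]
    omega

theorem no4 {n : ℕ} (G : SimpleGraph (Fin n)) (h : IsEmpty (SimpleGraph.cycleGraph 4 ↪g G))
    (a b c d : Fin n) (hab : G.Adj a b) (hbc : G.Adj b c) (hcd : G.Adj c d) (hda : G.Adj d a)
    (hac : ¬ G.Adj a c) (hbd : ¬ G.Adj b d) (hne : a ≠ c) : b = d := by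
  by_contra hne'
  refine h.false ⟨⟨![a, b, c, d], ?_⟩, ?_⟩
  · intro i j hij
    fin_cases i <;> fin_cases j <;> first
      | rfl
      | exact absurd hij hab.ne
      | exact absurd hij hab.ne'
      | exact absurd hij hbc.ne
      | exact absurd hij hbc.ne'
      | exact absurd hij hcd.ne
      | exact absurd hij hcd.ne'
      | exact absurd hij hda.ne
      | exact absurd hij hda.ne'
      | exact absurd hij hne
      | exact absurd hij hne.symm
      | exact absurd hij hne'
      | exact absurd hij (Ne.symm hne')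
  · intro i j
    show G.Adj (![a, b, c, d] i) (![a, b, c, d] j) ↔ (SimpleGraph.cycleGraph 4).Adj i j
    have hca : ¬ G.Adj c a := fun h => hac h.symm
    have hdb : ¬ G.Adj d b := fun h => hbd h.symm
    fin_cases i <;> fin_cases j <;>
      simp [SimpleGraph.cycleGraph_adj, hab, hbc, hcd, hda, hab.symm, hbc.symm, hcd.symm,
        hda.symm, hac, hbd, hca, hdb] <;> decide

open Classical in
theorem gra : GraStmt := by
  intro k x
  refine ⟨⟨?_, ?_, ?_, ?_⟩, ⟨?_, ?_⟩, ?_⟩
  · rintro u v ⟨hu, hv, -⟩
    exact ⟨hu, hv⟩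
  · rintro u v ⟨hu, hv, h⟩
    exact ⟨hv, hu, h.symm⟩
  · rintro u ⟨hu, hu', h⟩
    exact h.ne rfl
  · rintro a b c d ⟨ha, hb, hab⟩ ⟨_, hc, hbc⟩ ⟨_, hd, hcd⟩ ⟨_, _, hda⟩ hac hbd hne
    have := no4 x.G x.free ⟨a, ha⟩ ⟨b, hb⟩ ⟨c, hc⟩ ⟨d, hd⟩ hab hbc hcd hda
      (fun h => hac ⟨ha, hc, h⟩) (fun h => hbd ⟨hb, hd, h⟩) (fun h => hne (congrArg Fin.val h))
    exact congrArg Fin.val this
  · rintro ⟨y, hy, hind⟩
    have key : ∀ i j, i < k → j < k → i ≠ j →
        ¬ (grOf k x (fun _ => False)).Cl (y i) (y j) := by
      intro i j hi hj hij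
      rcases lt_or_gt_of_ne hij with h | h
      · exact hind j hj i h
      · intro hcl
        apply hind i hi j h
        rcases hcl with h1 | ⟨hu, hv, h1⟩
        · exact Or.inl h1.symm
        · exact Or.inr ⟨hv, hu, h1.symm⟩
    have hinj : Function.Injective fun i : Fin k => (⟨y i, hy i i.2⟩ : Fin x.N) := by
      intro i j hij
      by_contra hne
      exact key i j i.2 j.2 (fun h => hne (Fin.ext h)) (Or.inl (congrArg Fin.val hij))
    refine ⟨Finset.univ.image fun i : Fin k => (⟨y i, hy i i.2⟩ : Fin x.N), ?_, ?_⟩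
    · rw [Finset.card_image_of_injective _ hinj, Finset.card_univ, Fintype.card_fin]
    · intro u hu v hv huv hadj
      rw [Finset.mem_coe, Finset.mem_image] at hu hv
      obtain ⟨i, -, rfl⟩ := hu
      obtain ⟨j, -, rfl⟩ := hv
      have hij : (i : ℕ) ≠ j := by
        intro h
        exact huv (by rw [Fin.ext h])
      exact key i j i.2 j.2 hij (Or.inr ⟨_, _, hadj⟩)
  · rintro ⟨s, hs, hind⟩
    have e : Fin k ≃ s := (finCongr hs.symm).trans s.equivFin.symm
    refine ⟨fun i => if h : i < k then ((e ⟨i, h⟩ : s) : Fin x.N).val else 0, ?_, ?_⟩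
    · intro i hi
      have hi' : i < k := hi
      simp only [dif_pos hi']
      exact ((e ⟨i, hi'⟩ : s) : Fin x.N).2
    · intro j hj i hij
      have hj' : j < k := hj
      have hi' : i < k := by omega
      simp only [dif_pos hj', dif_pos hi']
      have hne : ((e ⟨i, hi'⟩ : s) : Fin x.N) ≠ ((e ⟨j, hj'⟩ : s) : Fin x.N) := by
        intro h
        have h2 := e.injective (Subtype.ext h)
        have h3 : i = j := congrArg Fin.val h2
        omega
      rintro (h | ⟨hu, hv, h⟩)
      · exact hne (Fin.ext h)
      · exact hind (e ⟨i, hi'⟩).2 (e ⟨j, hj'⟩).2 hne h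
  · have hL : ∀ i ∈ List.finRange x.N, ((List.finRange x.N).map fun j =>
        decide (x.G.Adj i j)).length = x.N := by
      intro i _
      rw [List.length_map, List.length_finRange]
    refine ⟨?_, ?_, ?_⟩
    · rw [List.length_map]
      unfold encGraph
      rw [blk_length _ x.N _ hL, List.length_finRange]
      rfl
    · intro c hc
      rw [List.mem_map] at hc
      obtain ⟨b, -, rfl⟩ := hc
      cases b
      · exact Or.inr rfl
      · exact Or.inl rfl
    · intro u hu v hv
      have hu' : u < x.N := hu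
      have hv' : v < x.N := hv
      show ((encGraph x).map fun b => if b then Lt.pos else Lt.neg)[u * x.N + v]? = some Lt.pos ↔
        ∃ (hu : u < x.N) (hv : v < x.N), x.G.Adj ⟨u, hu⟩ ⟨v, hv⟩
      rw [List.getElem?_map]
      have h1 : (encGraph x)[u * x.N + v]? = some (decide (x.G.Adj ⟨u, hu'⟩ ⟨v, hv'⟩)) := by
        unfold encGraph
        rw [blk _ x.N _ hL u v (by rw [List.length_finRange]; exact hu') hv', List.getElem?_map,
          List.getElem?_eq_getElem (by rw [List.length_finRange]; exact hv')]
        simp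
      rw [h1, Option.map_some, Option.some.injEq]
      by_cases h : x.G.Adj ⟨u, hu'⟩ ⟨v, hv'⟩
      · rw [decide_eq_true h]
        exact ⟨fun _ => ⟨hu', hv', h⟩, fun _ => rfl⟩
      · rw [decide_eq_false h]
        constructor
        · intro h2
          exact absurd h2 (by decide)
        · rintro ⟨_, _, h2⟩
          exact absurd h2 h

end Pool.Agent.C4U.H62
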